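import Pool.Agent.Y990.CB.Basic

set_option autoImplicit false

open MeasureTheory Set

/-!
Job CB-LLN (project CB of helper990): second moment comparison of point and box connections.
-/

namespace Pool.Agent.Y508.CB

open Pool.Agent.Y990.CB
open Pool.Agent.W783.PC (pm DepOn Inc)

noncomputable section

lemma ind_int {Ω : Type} [MeasurableSpace Ω] (μ : Measure Ω) [IsProbabilityMeasure μ]
    {A : Set Ω} (hA : MeasurableSet A) : Integrable (A.indicator (1 : Ω → ℝ)) μ :=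
  (integrable_const (1 : ℝ)).indicator hA

lemma ind_mul_int {Ω : Type} [MeasurableSpace Ω] (μ : Measure Ω) [IsProbabilityMeasure μ]
    {A B : Set Ω} (hA : MeasurableSet A) (hB : MeasurableSet B) :
    Integrable (fun ω => A.indicator (1 : Ω → ℝ) ω * B.indicator (1 : Ω → ℝ) ω) μ := by
  have h : (fun ω => A.indicator (1 : Ω → ℝ) ω * B.indicator (1 : Ω → ℝ) ω) =
      (A ∩ B).indicator (1 : Ω → ℝ) := by
    rw [Set.inter_indicator_one]
    rfl
  rw [h]
  exact ind_int μ (hA.inter hB)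

lemma integral_ind_mul {Ω : Type} [MeasurableSpace Ω] (μ : Measure Ω) [IsProbabilityMeasure μ]
    {A B : Set Ω} (hA : MeasurableSet A) (hB : MeasurableSet B) :
    ∫ ω, A.indicator (1 : Ω → ℝ) ω * B.indicator (1 : Ω → ℝ) ω ∂μ = μ.real (A ∩ B) := by
  have h : (fun ω => A.indicator (1 : Ω → ℝ) ω * B.indicator (1 : Ω → ℝ) ω) =
      (A ∩ B).indicator (1 : Ω → ℝ) := by
    rw [Set.inter_indicator_one]
    rfl
  rw [h, integral_indicator_one (hA.inter hB)]

/-- Abstract second moment comparison. -/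
theorem second_moment {Ω ι : Type} [MeasurableSpace Ω] (μ : Measure Ω) [IsProbabilityMeasure μ]
    (Λ : Finset ι) (Y T : ι → Set Ω) (H : Set Ω) (q D : ℝ) (near : ι → Finset ι)
    (hY : ∀ x, MeasurableSet (Y x)) (hH : MeasurableSet H)
    (hT : ∀ x ∈ Λ, T x ⊆ Y x ∩ H) (hq : ∀ x ∈ Λ, μ.real (Y x) = q)
    (hD : ∀ x ∈ Λ, ((near x).card : ℝ) ≤ D) (hD0 : 0 < D) (hΛ : Λ.Nonempty)
    (hind : ∀ x ∈ Λ, ∀ x' ∈ Λ, x' ∉ near x → μ.real (Y x ∩ Y x') = q ^ 2) :
    ∑ x ∈ Λ, μ.real (T x) ≤ Λ.card * q * μ.real H + √(Λ.card * D) := by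
  classical
  have hn : (0 : ℝ) < Λ.card := by exact_mod_cast hΛ.card_pos
  set c : ℝ := Λ.card * q with hc
  set V : ℝ := Λ.card * D with hV
  have hVpos : 0 < V := mul_pos hn hD0
  set f : ι → Ω → ℝ := fun x => (Y x).indicator 1 with hf
  set h : Ω → ℝ := H.indicator 1 with hh
  have hfi : ∀ x, Integrable (f x) μ := fun x => ind_int μ (hY x)
  have hfe : ∀ x, ∫ ω, f x ω ∂μ = μ.real (Y x) := fun x => integral_indicator_one (hY x)
  have hhi : Integrable h μ := ind_int μ hH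
  have hhe : ∫ ω, h ω ∂μ = μ.real H := integral_indicator_one hH
  -- the second moment
  have hsq : ∀ ω, (∑ x ∈ Λ, f x ω - c) ^ 2 =
      (∑ x ∈ Λ, ∑ x' ∈ Λ, f x ω * f x' ω) - 2 * c * (∑ x ∈ Λ, f x ω) + c ^ 2 := by
    intro ω
    rw [sub_sq, sq (∑ x ∈ Λ, f x ω), Finset.sum_mul_sum]
    ring
  have hi1 : Integrable (fun ω => ∑ x ∈ Λ, ∑ x' ∈ Λ, f x ω * f x' ω) μ :=
    integrable_finsetSum _ fun x _ => integrable_finsetSum _ fun x' _ =>
      ind_mul_int μ (hY x) (hY x')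
  have hi2 : Integrable (fun ω => ∑ x ∈ Λ, f x ω) μ :=
    integrable_finsetSum _ fun x _ => hfi x
  have hi3 : Integrable (fun ω => (∑ x ∈ Λ, f x ω - c) ^ 2) μ := by
    simp only [hsq]
    exact (hi1.sub (hi2.const_mul _)).add (integrable_const _)
  have hvar : ∫ ω, (∑ x ∈ Λ, f x ω - c) ^ 2 ∂μ ≤ V := by
    have e1 : ∫ ω, (∑ x ∈ Λ, f x ω - c) ^ 2 ∂μ =
        (∑ x ∈ Λ, ∑ x' ∈ Λ, μ.real (Y x ∩ Y x')) - 2 * c * (∑ x ∈ Λ, μ.real (Y x)) + c ^ 2 := by
      simp only [hsq]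
      have hi7 : Integrable (fun ω => 2 * c * ∑ x ∈ Λ, f x ω) μ := hi2.const_mul _
      have hi6 : Integrable (fun ω => (∑ x ∈ Λ, ∑ x' ∈ Λ, f x ω * f x' ω) -
          2 * c * ∑ x ∈ Λ, f x ω) μ := hi1.sub hi7
      rw [integral_add hi6 (integrable_const _),
        integral_sub hi1 hi7, integral_const_mul,
        integral_finsetSum _ (fun x _ => integrable_finsetSum _ fun x' _ =>
          ind_mul_int μ (hY x) (hY x')), integral_finsetSum _ (fun x _ => hfi x)]
      simp only [hfe, integral_const, probReal_univ, smul_eq_mul, one_mul]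
      congr 2
      refine Finset.sum_congr rfl fun x _ => ?_
      rw [integral_finsetSum _ (fun x' _ => ind_mul_int μ (hY x) (hY x'))]
      exact Finset.sum_congr rfl fun x' _ => integral_ind_mul μ (hY x) (hY x')
    have e2 : ∑ x ∈ Λ, μ.real (Y x) = c := by
      rw [Finset.sum_congr rfl hq, Finset.sum_const, nsmul_eq_mul]
    have e3 : ∑ x ∈ Λ, ∑ x' ∈ Λ, μ.real (Y x ∩ Y x') ≤ V + c ^ 2 := by
      have : ∀ x ∈ Λ, ∑ x' ∈ Λ, μ.real (Y x ∩ Y x') ≤ D + Λ.card * q ^ 2 := by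
        intro x hx
        have h1 : ∀ x' ∈ Λ, μ.real (Y x ∩ Y x') ≤ (if x' ∈ near x then (1 : ℝ) else 0) + q ^ 2 := by
          intro x' hx'
          split_ifs with hn
          · have := measureReal_le_one (μ := μ) (s := Y x ∩ Y x')
            have := sq_nonneg q
            linarith
          · rw [hind x hx x' hx' hn, zero_add]
        refine (Finset.sum_le_sum h1).trans ?_
        rw [Finset.sum_add_distrib, Finset.sum_const, nsmul_eq_mul, Finset.sum_boole]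
        have h2 : ((Λ.filter (fun x' => x' ∈ near x)).card : ℝ) ≤ (near x).card := by
          exact_mod_cast Finset.card_le_card (fun y hy => (Finset.mem_filter.1 hy).2)
        have := hD x hx
        linarith
      refine (Finset.sum_le_sum this).trans ?_
      rw [Finset.sum_const, nsmul_eq_mul, hV, hc]
      apply le_of_eq
      ring
    rw [e1, e2]
    nlinarith
  -- Cauchy-Schwarz
  set t : ℝ := √V with ht
  have htpos : 0 < t := Real.sqrt_pos.2 hVpos
  have htt : t * t = V := Real.mul_self_sqrt hVpos.le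
  have hpt : ∀ ω, (∑ x ∈ Λ, f x ω * h ω) ≤ c * h ω + (t / 2 + (∑ x ∈ Λ, f x ω - c) ^ 2 / (2 * t)) := by
    intro ω
    rw [← Finset.sum_mul]
    set S : ℝ := ∑ x ∈ Λ, f x ω
    have h01 : h ω = 0 ∨ h ω = 1 := by
      by_cases hω : ω ∈ H
      · right; simp [hh, hω]
      · left; simp [hh, hω]
    have hnn : 0 ≤ t / 2 + (S - c) ^ 2 / (2 * t) := by positivity
    rcases h01 with h0 | h1
    · rw [h0]; linarith
    · rw [h1]
      have h2 : (S - c) ≤ t / 2 + (S - c) ^ 2 / (2 * t) := by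
        have h3 : t / 2 + (S - c) ^ 2 / (2 * t) - (S - c) = (t - (S - c)) ^ 2 / (2 * t) := by
          field_simp
          ring
        have h4 : 0 ≤ (t - (S - c)) ^ 2 / (2 * t) := by positivity
        linarith
      linarith
  have hi4 : Integrable (fun ω => ∑ x ∈ Λ, f x ω * h ω) μ :=
    integrable_finsetSum _ fun x _ => ind_mul_int μ (hY x) hH
  have hi5 : Integrable (fun ω => t / 2 + (∑ x ∈ Λ, f x ω - c) ^ 2 / (2 * t)) μ :=
    (integrable_const _).add (hi3.div_const _)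
  have hint := integral_mono hi4 ((hhi.const_mul c).add hi5) hpt
  rw [integral_finsetSum _ (fun x _ => ind_mul_int μ (hY x) hH)] at hint
  have e4 : ∫ ω, (((fun ω => c * h ω) + fun ω => t / 2 + (∑ x ∈ Λ, f x ω - c) ^ 2 / (2 * t)) : Ω → ℝ) ω ∂μ =
      c * μ.real H + (t / 2 + (∫ ω, (∑ x ∈ Λ, f x ω - c) ^ 2 ∂μ) / (2 * t)) := by
    rw [integral_add' (hhi.const_mul c) hi5, integral_const_mul, hhe,
      integral_add (integrable_const _) (hi3.div_const _), integral_const]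
    have e7 : ∫ ω, (∑ x ∈ Λ, f x ω - c) ^ 2 / (2 * t) ∂μ =
        (∫ ω, (∑ x ∈ Λ, f x ω - c) ^ 2 ∂μ) / (2 * t) := integral_div _ _
    rw [e7]
    simp
  rw [e4] at hint
  have e5 : ∑ x ∈ Λ, μ.real (T x) ≤ ∑ x ∈ Λ, ∫ ω, f x ω * h ω ∂μ := by
    refine Finset.sum_le_sum fun x hx => ?_
    rw [integral_ind_mul μ (hY x) hH]
    exact measureReal_mono (hT x hx)
  have e6 : (∫ ω, (∑ x ∈ Λ, f x ω - c) ^ 2 ∂μ) / (2 * t) ≤ t / 2 := by
    rw [div_le_iff₀ (by positivity)]
    calc _ ≤ V := hvar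
      _ = t / 2 * (2 * t) := by rw [← htt]; ring
  linarith

lemma disj_Bo {d : ℕ} {x y : Z d} {m : ℕ} (h : y ∉ Bo x (2 * m)) : Disjoint (Bo x m) (Bo y m) := by
  rw [Set.disjoint_left]
  intro z hz hz'
  apply h
  intro i
  have h1 := abs_le.1 (hz i)
  have h2 := abs_le.1 (hz' i)
  rw [abs_le]
  push_cast
  constructor <;> linarith [h1.1, h1.2, h2.1, h2.2]

lemma indep_real {d : ℕ} (M : Mod d) (p : unitInterval) {A B : Set (M.ι → Bool)} {R R' : Set (Z d)}
    (hA : DepOn A (In M R)) (hB : DepOn B (In M R')) (hR : Disjoint R R')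
    (hAm : MeasurableSet A) (hBm : MeasurableSet B) :
    (mu M p).real (A ∩ B) = (mu M p).real A * (mu M p).real B := by
  have := Pool.Agent.W45.PC.s_indep M.ι (fun _ => p) (In M R) (In M R') A B hA hB (In_disj M hR)
    hAm hBm
  unfold mu
  rw [Measure.real, this, ENNReal.toReal_mul]
  rfl

theorem lln : Pool.Agent.Y990.CB.S_lln := by
  intro d M p m k ρ v hv
  have hd : 1 ≤ d := by
    by_contra hd
    have : nm v ≤ 0 := nm_le.2 fun i => absurd i.2 (by omega)
    omega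
  obtain ⟨i, hi⟩ := exists_nm hd v
  have hvi : (2 * m + 2 * k + 2 : ℤ) < |v i| := by
    rw [hi]
    exact_mod_cast hv
  set α : ℝ := (mu M p).real {ω | Am M ω 0 m 0} with hα
  set H : Set (M.ι → Bool) := Lk M (Bo 0 (ρ + k)) (Bo 0 k) (Bo v k) with hH
  set Y : Z d → Set (M.ι → Bool) :=
    fun x => {ω | Am M ω x m x} ∩ {ω | Am M ω (x + v) m (x + v)} with hYdef
  have hfar : ∀ x x' : Z d, x ∈ Bo (0 : Z d) k → x' ∈ Bo (0 : Z d) k → x' + v ∉ Bo x (2 * m) := by
    intro x x' hx hx' h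
    have h1 := abs_le.1 (h i)
    have h2 := abs_le.1 (hx i)
    have h3 := abs_le.1 (hx' i)
    simp only [Pi.add_apply, Pi.zero_apply, sub_zero] at h1 h2 h3
    push_cast at h1
    rcases abs_cases (v i) with ⟨h4, _⟩ | ⟨h4, _⟩ <;> rw [h4] at hvi <;>
      linarith [h1.1, h1.2, h2.1, h2.2, h3.1, h3.2]
  have hα' : ∀ x : Z d, (mu M p).real {ω | Am M ω x m x} = α := by
    intro x
    have := Am_shift M p 0 x 0 m
    rwa [zero_add] at this
  have hYm : ∀ x, MeasurableSet (Y x) := fun x => (Am_meas M x m x).inter (Am_meas M _ m _)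
  have hYdep : ∀ x, DepOn (Y x) (In M (Bo x m ∪ Bo (x + v) m)) := by
    intro x ω ω' h
    have h1 := Am_dep M x m x ω ω' (fun c hc => h c (In_mono M Set.subset_union_left hc))
    have h2 := Am_dep M (x + v) m (x + v) ω ω' (fun c hc => h c (In_mono M Set.subset_union_right hc))
    exact and_congr h1 h2
  have hYr : ∀ x ∈ Bf (0 : Z d) k, (mu M p).real (Y x) = α ^ 2 := by
    intro x hx
    rw [mem_Bf] at hx
    have := indep_real M p (Am_dep M x m x) (Am_dep M (x + v) m (x + v))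
      (disj_Bo (hfar x x hx hx)) (Am_meas M x m x) (Am_meas M _ m _)
    rw [hYdef]
    show (mu M p).real ({ω | Am M ω x m x} ∩ {ω | Am M ω (x + v) m (x + v)}) = _
    rw [this, hα' x, hα' (x + v), sq]
  have key := second_moment (mu M p) (Bf (0 : Z d) k) Y
    (fun x => Cn M (Bo 0 (ρ + k)) x (v + x)) H (α ^ 2) ((4 * m + 1 : ℕ) ^ d)
    (fun x => Bf x (2 * m)) hYm (Lk_meas M _ _ _) ?_ hYr ?_ (by positivity) ⟨0, mem_Bf.2 (self_mem_Bo 0 k)⟩ ?_
  · -- conclusion
    have hcard : ((Bf (0 : Z d) k).card : ℝ) = ((2 * k + 1 : ℕ) : ℝ) ^ d := by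
      rw [card_Bf]; push_cast; ring
    have hlow : ((2 * k + 1 : ℕ) : ℝ) ^ d * (mu M p).real (Cn M (Bo 0 ρ) 0 v) ≤
        ∑ x ∈ Bf (0 : Z d) k, (mu M p).real (Cn M (Bo 0 (ρ + k)) x (v + x)) := by
      rw [← hcard, ← nsmul_eq_mul]
      refine Finset.card_nsmul_le_sum _ _ _ fun x hx => ?_
      rw [mem_Bf] at hx
      rw [← Cn_shift M p x (Bo 0 ρ) 0 v, sf_image_Bo, zero_add]
      refine measureReal_mono ?_
      intro ω hω
      exact reach_mono (Bo_sub hx le_rfl) hω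
    rw [hcard] at key
    set n0 : ℝ := ((2 * k + 1 : ℕ) : ℝ) ^ d with hn0
    have hn0pos : 0 < n0 := by positivity
    have hs : √(n0 * ((4 * m + 1 : ℕ) : ℝ) ^ d) = n0 * √(((4 * m + 1 : ℕ) : ℝ) ^ d / n0) := by
      rw [show n0 * ((4 * m + 1 : ℕ) : ℝ) ^ d = n0 ^ 2 * (((4 * m + 1 : ℕ) : ℝ) ^ d / n0) by
        field_simp, Real.sqrt_mul (by positivity), Real.sqrt_sq hn0pos.le]
    rw [hs] at key
    have h1 : n0 * (mu M p).real (Cn M (Bo 0 ρ) 0 v) ≤
        n0 * (α ^ 2 * (mu M p).real H + √(((4 * m + 1 : ℕ) : ℝ) ^ d / n0)) := by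
      calc _ ≤ _ := hlow.trans key
        _ = _ := by ring
    exact le_of_mul_le_mul_left h1 hn0pos
  · intro x hx ω hω
    rw [mem_Bf] at hx
    have hfx := hfar x x hx hx
    have h1 : v + x ∉ Bo x m := by
      rw [add_comm]
      exact fun h => hfx (Bo_mono x (by omega) h)
    have h2 : x ∉ Bo (x + v) m := fun h => hfx (Bo_mono x (by omega) (mem_Bo_comm.1 h))
    refine ⟨⟨exit_Am (self_mem_Bo x m) (Or.inl h1) hω, ?_⟩, x, hx, v + x, ?_, hω⟩
    · refine exit_Am (self_mem_Bo _ m) (Or.inl h2) (R := Bo 0 (ρ + k)) ?_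
      have := SimpleGraph.Reachable.symm hω
      rwa [add_comm v x] at this
    · have : x + v ∈ Bo (0 + v) k := mem_Bo_add.2 hx
      rwa [zero_add, add_comm] at this
  · intro x _
    rw [card_Bf]
    push_cast
    ring_nf
    exact le_rfl
  · intro x hx x' hx' hn
    rw [mem_Bf] at hx hx' hn
    have hdis : Disjoint (Bo x m ∪ Bo (x + v) m) (Bo x' m ∪ Bo (x' + v) m) := by
      rw [Set.disjoint_union_left, Set.disjoint_union_right, Set.disjoint_union_right]
      refine ⟨⟨disj_Bo hn, disj_Bo (hfar x x' hx hx')⟩, (disj_Bo (hfar x' x hx' hx)).symm, disj_Bo ?_⟩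
      rw [mem_Bo_add]
      exact hn
    rw [indep_real M p (hYdep x) (hYdep x') hdis (hYm x) (hYm x'), hYr x (mem_Bf.2 hx),
      hYr x' (mem_Bf.2 hx')]
    ring

end

end Pool.Agent.Y508.CB
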